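import Mathlib

/-!
# Fewest edges forcing induced maximum degree `k` on `(k+2)`-sets: the range `n ≤ 2k`

We prove `f(n,k) ≤ C(n-1,2) - C(k,2)` for all `k ≥ 2`, `n ≥ k+2`, with equality if and only if
`n ≤ 2k`.

Outline.  In the complement `H` call a vertex set closed if it induces minimum degree at least two;
`P_k` says that `H` has no closed `(k+2)`-set.  Let `S` be a densest `(k+2)`-set of `H`, let `v`
be a vertex of degree at most one in it, `S' = S - v`, and `W` the rest.  Every vertex of `W` has at
most one neighbour in `S'`.  If `S'` misses at most `k-2` edges, a minimal relatively closed subset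
of `W` (it has at most two edges to `S'`) can be completed inside `S'`.  If `S'` misses more
edges, one compares the two minimum degree peelings of `S'` and `W` (`seq_main`).
-/

namespace Pool.Agent.Results.MP_d31508_co.CliqueRange

open Finset

/-! ### The sequence lemma -/

/-- If `ρ j ≤ 1`, all earlier indices miss at least `K - j`. -/
lemma seq_low (K : ℕ) (ρ : ℕ → ℕ) (hρ1 : ∀ j, j + 1 < K + 2 → ρ j ≤ ρ (j + 1) + 1)
    (j : ℕ) (hj : j < K + 2) (hρ : ρ j ≤ 1) :
    ∀ t ≤ j, ρ (j - t) ≤ 1 + t := by
  intro t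
  induction t with
  | zero => intro _; simpa using hρ
  | succ t ih =>
    intro ht
    have h1 := ih (by omega)
    have h2 := hρ1 (j - (t + 1)) (by omega)
    have e : j - (t + 1) + 1 = j - t := by omega
    rw [e] at h2
    omega

/-- missing edges up to index `n` -/
def Gs (K : ℕ) (ρ : ℕ → ℕ) (n : ℕ) : ℤ := ∑ j ∈ range n, ((K : ℤ) + 1 - j - ρ j)

lemma seq_G (K : ℕ) (ρ : ℕ → ℕ) (hρ1 : ∀ j, j + 1 < K + 2 → ρ j ≤ ρ (j + 1) + 1)
    (j : ℕ) (hj : j < K + 2) (hρ : ρ j ≤ 1) :
    ∀ t ≤ j + 1, Gs K ρ (j + 1 - t) + t * ((K : ℤ) - j) ≤ Gs K ρ (j + 1) := by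
  intro t
  induction t with
  | zero => intro _; simp
  | succ t ih =>
    intro ht
    have h1 := ih (by omega)
    have h2 := seq_low K ρ hρ1 j hj hρ t (by omega)
    have e : j + 1 - t = (j + 1 - (t + 1)) + 1 := by omega
    rw [e] at h1
    have e2 : j + 1 - (t + 1) = j - t := by omega
    rw [e2] at h1 ⊢
    have h3 : Gs K ρ (j - t + 1) = Gs K ρ (j - t) + ((K : ℤ) + 1 - ((j - t : ℕ) : ℤ) - ρ (j - t)) := by
      unfold Gs; rw [sum_range_succ]
    rw [h3] at h1
    have h4 : ((j - t : ℕ) : ℤ) = (j : ℤ) - t := by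
      have : t ≤ j := by omega
      push_cast [this]; ring
    have h5 : ((ρ (j - t) : ℕ) : ℤ) ≤ 1 + t := by exact_mod_cast h2
    rw [h4] at h1
    push_cast
    linarith

lemma seq_main (K M : ℕ) (ρ τ : ℕ → ℕ) (hMK : M ≤ K)
    (hρ0 : ∀ j, j < K + 2 → ρ j + j + 1 ≤ K + 2)
    (hρ1 : ∀ j, j + 1 < K + 2 → ρ j ≤ ρ (j + 1) + 1)
    (hτ0 : ∀ j, j < M → τ j ≤ j)
    (hτ1 : ∀ j, j + 1 < M → τ (j + 1) ≤ τ j + 1)
    (hor : ∀ j, j < M → ρ j ≤ 1 ∨ τ j ≤ 1)
    (hex : ∃ j, j < M ∧ 2 ≤ τ j) :
    (∑ j ∈ range M, (τ j : ℤ)) ≤ Gs K ρ (K + 2) := by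
  -- the invariant
  have inv : ∀ j, j < M →
      ((∀ i ≤ j, τ i ≤ 1) ∧ (∑ i ∈ range (j + 1), (τ i : ℤ)) ≤ j) ∨
      (∃ l, l ≤ j ∧ (l < j → τ j ≤ 1) ∧
        (∑ i ∈ range (j + 1), (τ i : ℤ)) + ((l : ℤ) + 1) * ((K : ℤ) - 1 - l)
          ≤ Gs K ρ (l + 1) + ((j : ℤ) - l)) := by
    intro j
    induction j with
    | zero =>
      intro h0
      left
      have := hτ0 0 h0
      refine ⟨?_, ?_⟩
      · intro i hi
        have : i = 0 := by omega
        subst this; omega
      · simp; omega
    | succ j ih =>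
      intro hj
      have hτ := hτ1 j hj
      rcases ih (by omega) with ⟨hA1, hA2⟩ | ⟨l, hl, hl1, hB⟩
      · by_cases h1 : τ (j + 1) ≤ 1
        · left
          refine ⟨?_, ?_⟩
          · intro i hi
            rcases Nat.lt_or_ge i (j + 1) with h | h
            · exact hA1 i (by omega)
            · have : i = j + 1 := by omega
              subst this; exact h1
          · rw [sum_range_succ]
            have : ((τ (j + 1) : ℕ) : ℤ) ≤ 1 := by exact_mod_cast h1
            push_cast
            linarith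
        · right
          have hρ : ρ (j + 1) ≤ 1 := by
            rcases hor (j + 1) hj with h | h
            · exact h
            · exact absurd h h1
          refine ⟨j + 1, le_rfl, by omega, ?_⟩
          have hG := seq_G K ρ hρ1 (j + 1) (by omega) hρ (j + 1 + 1) le_rfl
          have e : j + 1 + 1 - (j + 1 + 1) = 0 := by omega
          rw [e] at hG
          have e0 : Gs K ρ 0 = 0 := by simp [Gs]
          rw [e0] at hG
          rw [sum_range_succ]
          have h2 : ((τ (j + 1) : ℕ) : ℤ) ≤ 2 := by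
            have := hA1 j le_rfl
            have : τ (j + 1) ≤ 2 := by omega
            exact_mod_cast this
          push_cast at hG ⊢
          nlinarith
      · by_cases h1 : τ (j + 1) ≤ 1
        · right
          refine ⟨l, by omega, fun _ => h1, ?_⟩
          rw [sum_range_succ]
          have : ((τ (j + 1) : ℕ) : ℤ) ≤ 1 := by exact_mod_cast h1
          push_cast
          linarith
        · right
          have hρ : ρ (j + 1) ≤ 1 := by
            rcases hor (j + 1) hj with h | h
            · exact h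
            · exact absurd h h1
          refine ⟨j + 1, le_rfl, by omega, ?_⟩
          obtain ⟨d, hd⟩ : ∃ d, j + 1 = l + d := ⟨j + 1 - l, by omega⟩
          have hd1 : 1 ≤ d := by omega
          have hG := seq_G K ρ hρ1 (j + 1) (by omega) hρ d (by omega)
          have e : j + 1 + 1 - d = l + 1 := by omega
          rw [e] at hG
          have hjd : (j : ℤ) = l + d - 1 := by
            have : ((j + 1 : ℕ) : ℤ) = ((l + d : ℕ) : ℤ) := by rw [hd]
            push_cast at this; linarith
          have key : ((τ (j + 1) : ℕ) : ℤ) - 1 ≤ ((l : ℤ) + 1) * d := by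
            rcases Nat.eq_or_lt_of_le hl with h | h
            · have hd' : d = 1 := by omega
              have := hτ0 (j + 1) hj
              have h3 : ((τ (j + 1) : ℕ) : ℤ) ≤ (j : ℤ) + 1 := by exact_mod_cast this
              rw [hd']
              have : (j : ℤ) = l := by exact_mod_cast h.symm
              push_cast
              linarith
            · have h4 := hl1 h
              have h5 : τ (j + 1) ≤ 2 := by omega
              have h6 : ((τ (j + 1) : ℕ) : ℤ) ≤ 2 := by exact_mod_cast h5
              have h7 : (1 : ℤ) ≤ d := by exact_mod_cast hd1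
              have h8 : (0 : ℤ) ≤ l := by positivity
              nlinarith
          rw [sum_range_succ]
          push_cast at hG ⊢
          rw [hjd] at hB hG ⊢
          nlinarith
  -- conclusion
  obtain ⟨j0, hj0, hj0'⟩ := hex
  obtain ⟨M', rfl⟩ : ∃ M', M = M' + 1 := ⟨M - 1, by omega⟩
  rcases inv M' (by omega) with ⟨hA, _⟩ | ⟨l, hl, _, hB⟩
  · have := hA j0 (by omega); omega
  · have hmono : Gs K ρ (l + 1) ≤ Gs K ρ (K + 2) := by
      unfold Gs
      apply sum_le_sum_of_subset_of_nonneg
      · intro i hi; simp only [mem_range] at hi ⊢; omega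
      · intro i hi _
        simp only [mem_range] at hi
        have := hρ0 i hi
        have : ((ρ i : ℕ) : ℤ) + i + 1 ≤ K + 2 := by exact_mod_cast this
        linarith
    have h1 : (M' : ℤ) + 1 ≤ K := by exact_mod_cast hMK
    have h2 : (l : ℤ) ≤ M' := by exact_mod_cast hl
    have h3 : (0 : ℤ) ≤ l := by positivity
    nlinarith

section graph

variable {V : Type*} [DecidableEq V] (H : SimpleGraph V) [DecidableRel H.Adj]

/-- the number of neighbours of `v` in `A` -/
def dg (A : Finset V) (v : V) : ℕ := (A.filter (fun w => H.Adj v w)).card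

/-- twice the number of edges inside `A` -/
def D (A : Finset V) : ℕ := ∑ v ∈ A, dg H A v

lemma dg_insert (A : Finset V) (v a : V) (hv : v ∉ A) :
    dg H (insert v A) a = dg H A a + if H.Adj a v then 1 else 0 := by
  unfold dg
  rw [filter_insert]
  split_ifs with h
  · rw [card_insert_of_notMem]
    simp [hv]
  · rfl

lemma dg_insert_self (A : Finset V) (v : V) (hv : v ∉ A) : dg H (insert v A) v = dg H A v := by
  rw [dg_insert H A v v hv]; simp

omit [DecidableEq V] in
lemma sum_ite_adj (A : Finset V) (v : V) :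
    ∑ a ∈ A, (if H.Adj a v then 1 else 0) = dg H A v := by
  unfold dg
  rw [card_filter]
  apply sum_congr rfl
  intro a _
  simp [H.adj_comm]

lemma D_insert (A : Finset V) (v : V) (hv : v ∉ A) :
    D H (insert v A) = D H A + 2 * dg H A v := by
  unfold D
  rw [sum_insert hv, dg_insert_self H A v hv]
  have : ∑ a ∈ A, dg H (insert v A) a = ∑ a ∈ A, (dg H A a + if H.Adj a v then 1 else 0) :=
    sum_congr rfl (fun a _ => dg_insert H A v a hv)
  rw [this, sum_add_distrib, sum_ite_adj]
  ring

lemma dg_erase_self (A : Finset V) (v : V) (hv : v ∈ A) : dg H (A.erase v) v = dg H A v := by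
  have := dg_insert_self H (A.erase v) v (notMem_erase v A)
  rw [insert_erase hv] at this
  exact this.symm

lemma D_erase (A : Finset V) (v : V) (hv : v ∈ A) :
    D H A = D H (A.erase v) + 2 * dg H A v := by
  have := D_insert H (A.erase v) v (notMem_erase v A)
  rw [insert_erase hv, dg_erase_self H A v hv] at this
  exact this

omit [DecidableEq V] in
lemma dg_mono {A B : Finset V} (h : A ⊆ B) (v : V) : dg H A v ≤ dg H B v :=
  card_le_card (filter_subset_filter _ h)

lemma dg_le_erase (A : Finset V) (v a : V) : dg H A a ≤ dg H (A.erase v) a + 1 := by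
  by_cases hv : v ∈ A
  · have := dg_insert H (A.erase v) v a (notMem_erase v A)
    rw [insert_erase hv] at this
    split_ifs at this <;> omega
  · rw [erase_eq_of_notMem hv]; omega

lemma dg_lt (A : Finset V) (v : V) (hv : v ∈ A) : dg H A v + 1 ≤ A.card := by
  rw [← dg_erase_self H A v hv]
  have h1 : dg H (A.erase v) v ≤ (A.erase v).card := card_filter_le _ _
  have h2 := card_erase_add_one hv
  omega

lemma dg_union (A B : Finset V) (hAB : Disjoint A B) (v : V) :
    dg H (A ∪ B) v = dg H A v + dg H B v := by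
  unfold dg
  rw [filter_union, card_union_of_disjoint]
  exact disjoint_filter_filter hAB

lemma D_union (A B : Finset V) (hAB : Disjoint A B) :
    D H (A ∪ B) = D H A + D H B + 2 * ∑ b ∈ B, dg H A b := by
  induction B using Finset.induction_on with
  | empty => simp [D]
  | insert b B hb ih =>
    have hd : Disjoint A B := hAB.mono_right (subset_insert _ _)
    have hbA : b ∉ A := fun h => (disjoint_left.mp hAB) h (mem_insert_self _ _)
    have e : A ∪ insert b B = insert b (A ∪ B) := by
      ext x; simp only [mem_union, mem_insert]; tauto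
    rw [e, D_insert H (A ∪ B) b (by simp [hb, hbA]), ih hd, D_insert H B b hb, sum_insert hb,
      dg_union H A B hd]
    ring

/-- Peeling off vertices of minimum degree. -/
lemma peel (A : Finset V) : ∃ (c : ℕ → Finset V) (d : ℕ → ℕ),
    (∀ j, j < A.card → (c j).card = A.card - j ∧ c j ⊆ A ∧ (∀ v ∈ c j, d j ≤ dg H (c j) v) ∧
      (∃ v ∈ c j, dg H (c j) v = d j)) ∧
    (∀ j, j + 1 < A.card → d j ≤ d (j + 1) + 1) ∧ D H A = 2 * ∑ j ∈ range A.card, d j := by
  obtain ⟨s, hs⟩ : ∃ s, A.card = s := ⟨_, rfl⟩
  induction s generalizing A with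
  | zero =>
    refine ⟨fun _ => ∅, fun _ => 0, ?_, ?_, ?_⟩
    · intro j hj; omega
    · intro j hj; omega
    · have : A = ∅ := card_eq_zero.mp hs
      subst this; simp [D]
  | succ s ih =>
    have hne : A.Nonempty := by rw [← card_pos]; omega
    obtain ⟨v, hv, hmin⟩ := exists_min_image A (dg H A) hne
    have hcard : (A.erase v).card = s := by
      have := card_erase_add_one hv; omega
    obtain ⟨c, d, h1, h2, h3⟩ := ih (A.erase v) hcard
    rw [hcard] at h1 h2 h3
    refine ⟨fun j => match j with | 0 => A | j + 1 => c j,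
      fun j => match j with | 0 => dg H A v | j + 1 => d j, ?_, ?_, ?_⟩
    · intro j hj
      rcases j with _ | j
      · exact ⟨by simp, Subset.refl A, hmin, v, hv, rfl⟩
      · obtain ⟨a1, a2, a3, a4⟩ := h1 j (by omega)
        refine ⟨?_, a2.trans (erase_subset _ _), a3, a4⟩
        show (c j).card = A.card - (j + 1)
        omega
    · intro j hj
      rcases j with _ | j
      · obtain ⟨a1, a2, a3, u, hu, a4⟩ := h1 0 (by omega)
        show dg H A v ≤ d 0 + 1
        have huA : u ∈ A := mem_of_mem_erase (a2 hu)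
        have hc0 : c 0 = A.erase v := by
          apply eq_of_subset_of_card_le a2
          rw [a1, hcard]; omega
        rw [hc0] at a4
        have := dg_le_erase H A v u
        have := hmin u huA
        omega
      · exact h2 j (by omega)
    · rw [hs, sum_range_succ', D_erase H A v hv, h3]
      show 2 * ∑ j ∈ range s, d j + 2 * dg H A v = 2 * (∑ j ∈ range s, d j + dg H A v)
      ring

lemma D_even (A : Finset V) : ∃ e, D H A = 2 * e := by
  obtain ⟨c, d, _, _, h⟩ := peel H A
  exact ⟨_, h⟩

/-- If no nonempty subset of `A` is closed relative to `S`, there are at most `|A|` edges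
incident with `A`. -/
lemma relpeel (S A : Finset V)
    (h : ∀ X ⊆ A, X.Nonempty → ∃ x ∈ X, dg H X x + dg H S x ≤ 1) :
    D H A + 2 * ∑ a ∈ A, dg H S a ≤ 2 * A.card := by
  obtain ⟨s, hs⟩ : ∃ s, A.card = s := ⟨_, rfl⟩
  induction s generalizing A with
  | zero =>
    have : A = ∅ := card_eq_zero.mp hs
    subst this; simp [D]
  | succ s ih =>
    have hne : A.Nonempty := by rw [← card_pos]; omega
    obtain ⟨x, hx, hx1⟩ := h A (Subset.refl _) hne
    have hcard : (A.erase x).card = s := by
      have := card_erase_add_one hx; omega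
    have h1 := ih (A.erase x) (fun X hX hXne => h X (hX.trans (erase_subset _ _)) hXne) hcard
    have h2 := D_erase H A x hx
    have h3 : ∑ a ∈ A, dg H S a = ∑ a ∈ A.erase x, dg H S a + dg H S x :=
      (sum_erase_add A _ hx).symm
    rw [h2, h3]
    omega

/-- The structure of minimal relatively closed sets: at most two cross edges. -/
lemma exists_minimal (S W : Finset V) (hW : ∀ w ∈ W, dg H S w ≤ 1)
    (hbig : 2 * W.card < D H W + 2 * ∑ a ∈ W, dg H S a) :
    ∃ X ⊆ W, X.Nonempty ∧ (∀ x ∈ X, 2 ≤ dg H X x + dg H S x) ∧ ∑ x ∈ X, dg H S x ≤ 2 := by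
  classical
  have hex : ∃ s, ∃ X ⊆ W, X.Nonempty ∧ (∀ x ∈ X, 2 ≤ dg H X x + dg H S x) ∧ X.card = s := by
    by_contra hcon
    push Not at hcon
    have := relpeel H S W (by
      intro X hX hXne
      by_contra hc
      push Not at hc
      exact hcon X.card X hX hXne (fun x hx => hc x hx) rfl)
    omega
  obtain ⟨X, hXW, hXne, hXc, hXcard⟩ := Nat.find_spec hex
  have hmin : ∀ Y ⊆ X, Y.Nonempty → Y ≠ X → ∃ x ∈ Y, dg H Y x + dg H S x ≤ 1 := by
    intro Y hYX hYne hne
    by_contra hc
    push Not at hc
    have hlt : Y.card < Nat.find hex := by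
      rw [← hXcard]
      exact card_lt_card (lt_of_le_of_ne hYX hne)
    exact Nat.find_min hex hlt ⟨Y, hYX.trans hXW, hYne, fun x hx => hc x hx, rfl⟩
  refine ⟨X, hXW, hXne, hXc, ?_⟩
  -- a vertex of relative degree exactly two
  have h2 : ∃ x ∈ X, dg H X x + dg H S x = 2 := by
    by_contra hc
    push Not at hc
    have h3 : ∀ x ∈ X, 3 ≤ dg H X x + dg H S x := by
      intro x hx
      have := hXc x hx
      have := hc x hx
      omega
    obtain ⟨x0, hx0⟩ := hXne
    have hx0' := h3 x0 hx0
    have hS0 := hW x0 (hXW hx0)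
    have hpos : 0 < dg H X x0 := by omega
    obtain ⟨y, hy⟩ := card_pos.mp hpos
    rw [mem_filter] at hy
    have hyne : y ≠ x0 := by
      intro he; rw [he] at hy; exact H.irrefl hy.2
    obtain ⟨z, hz, hz1⟩ := hmin (X.erase x0) (erase_subset _ _) ⟨y, mem_erase.mpr ⟨hyne, hy.1⟩⟩
      (fun he => notMem_erase x0 X (by rw [he]; exact hx0))
    have h4 := h3 z (mem_of_mem_erase hz)
    have h5 := dg_le_erase H X x0 z
    omega
  obtain ⟨x, hx, hx2⟩ := h2
  have h3 := relpeel H S (X.erase x) (by
    intro Y hY hYne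
    apply hmin Y (hY.trans (erase_subset _ _)) hYne
    intro he
    rw [he] at hY
    exact notMem_erase x X (hY hx))
  have h4 := D_erase H X x hx
  have h5 : ∑ a ∈ X, dg H S a = ∑ a ∈ X.erase x, dg H S a + dg H S x :=
    (sum_erase_add X _ hx).symm
  have h6 := card_erase_add_one hx
  have h7 : X.card * 2 ≤ ∑ x ∈ X, (dg H X x + dg H S x) := by
    have := card_nsmul_le_sum X (fun x => dg H X x + dg H S x) 2 hXc
    simpa [smul_eq_mul] using this
  rw [sum_add_distrib] at h7
  have h8 : ∑ x ∈ X, dg H X x = D H X := rfl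
  rw [h8] at h7
  omega

/-- Deleting vertices of `A` outside the small set `T` while keeping degrees at least two. -/
lemma shrink (r : ℕ) (A T : Finset V) (y : ℕ) (hT : T ⊆ A) (hT2 : T.card ≤ 2)
    (hr : r + 3 ≤ A.card) (hy : y + 3 ≤ A.card) (hD : A.card * (A.card - 1) ≤ D H A + 2 * y) :
    ∃ Z ⊆ A, T ⊆ Z ∧ Z.card + r = A.card ∧
      ∀ z ∈ Z, 2 ≤ dg H Z z ∨ (z ∈ T ∧ 1 ≤ dg H Z z) := by
  induction r generalizing A y with
  | zero =>
    refine ⟨A, Subset.refl _, hT, by omega, ?_⟩
    intro z hz
    left
    -- missing degree at z is at most y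
    have h1 := D_erase H A z hz
    have h2 : D H (A.erase z) ≤ (A.erase z).card * ((A.erase z).card - 1) := by
      unfold D
      have : ∀ a ∈ A.erase z, dg H (A.erase z) a ≤ (A.erase z).card - 1 := by
        intro a ha
        have := dg_lt H (A.erase z) a ha; omega
      calc ∑ v ∈ A.erase z, dg H (A.erase z) v ≤ ∑ v ∈ A.erase z, ((A.erase z).card - 1) :=
            sum_le_sum this
        _ = _ := by rw [sum_const, smul_eq_mul]
    have h3 := card_erase_add_one hz
    obtain ⟨a, ha⟩ : ∃ a, A.card = a + 3 := ⟨A.card - 3, by omega⟩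
    have h4 : (A.erase z).card = a + 2 := by omega
    rw [h4] at h2
    rw [ha] at hD hy
    have e1 : a + 3 - 1 = a + 2 := by omega
    have e2 : a + 2 - 1 = a + 1 := by omega
    rw [e1] at hD
    rw [e2] at h2
    nlinarith
  | succ r ih =>
    by_cases hex : ∃ a ∈ A, a ∉ T ∧ dg H A a + 2 ≤ A.card
    · obtain ⟨a, haA, haT, hdeg⟩ := hex
      have h1 := D_erase H A a haA
      have h3 := card_erase_add_one haA
      have hy1 : 1 ≤ y := by
        -- D H A < A.card * (A.card - 1)
        by_contra hy0
        have hy0' : y = 0 := by omega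
        subst hy0'
        have h2 : D H (A.erase a) ≤ (A.erase a).card * ((A.erase a).card - 1) := by
          unfold D
          have : ∀ b ∈ A.erase a, dg H (A.erase a) b ≤ (A.erase a).card - 1 := by
            intro b hb
            have := dg_lt H (A.erase a) b hb; omega
          calc ∑ v ∈ A.erase a, dg H (A.erase a) v ≤ ∑ v ∈ A.erase a, ((A.erase a).card - 1) :=
                sum_le_sum this
            _ = _ := by rw [sum_const, smul_eq_mul]
        obtain ⟨b, hb⟩ : ∃ b, A.card = b + 3 := ⟨A.card - 3, by omega⟩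
        have h4 : (A.erase a).card = b + 2 := by omega
        rw [h4] at h2
        rw [hb] at hD hdeg
        have e1 : b + 3 - 1 = b + 2 := by omega
        have e2 : b + 2 - 1 = b + 1 := by omega
        rw [e1] at hD
        rw [e2] at h2
        nlinarith
      obtain ⟨Z, hZ1, hZ2, hZ3, hZ4⟩ := ih (A.erase a) (y - 1)
        (fun t ht => mem_erase.mpr ⟨fun he => haT (by rw [← he]; exact ht), hT ht⟩)
        (by omega) (by omega) (by
          obtain ⟨b, hb⟩ : ∃ b, A.card = b + 3 := ⟨A.card - 3, by omega⟩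
          have h4 : (A.erase a).card = b + 2 := by omega
          obtain ⟨y', rfl⟩ : ∃ y', y = y' + 1 := ⟨y - 1, by omega⟩
          rw [h4]
          rw [hb] at hD hdeg
          have e1 : b + 3 - 1 = b + 2 := by omega
          have e2 : b + 2 - 1 = b + 1 := by omega
          have e3 : y' + 1 - 1 = y' := by omega
          rw [e1] at hD
          rw [e2, e3]
          nlinarith)
      exact ⟨Z, hZ1.trans (erase_subset _ _), hZ2, by omega, hZ4⟩
    · push Not at hex
      -- every vertex outside `T` is adjacent to all others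
      have hfull : ∀ a ∈ A, a ∉ T → ∀ b ∈ A, b ≠ a → H.Adj a b := by
        intro a ha haT b hb hba
        have h1 := hex a ha haT
        by_contra hnadj
        have h2 : dg H A a ≤ ((A.erase a).erase b).card := by
          apply card_le_card
          intro w hw
          rw [mem_filter] at hw
          refine mem_erase.mpr ⟨?_, mem_erase.mpr ⟨?_, hw.1⟩⟩
          · intro he; rw [he] at hw; exact hnadj hw.2
          · intro he; rw [he] at hw; exact H.irrefl hw.2
        have h3 := card_erase_add_one ha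
        have h4 := card_erase_add_one (mem_erase.mpr ⟨hba, hb⟩)
        omega
      obtain ⟨Z, hTZ, hZA, hZc⟩ := exists_subsuperset_card_eq hT
        (show T.card ≤ A.card - (r + 1) by omega) (by omega)
      refine ⟨Z, hZA, hTZ, by omega, ?_⟩
      intro z hz
      by_cases hzT : z ∈ T
      · right
        refine ⟨hzT, ?_⟩
        have : (Z \ T).Nonempty := by
          rw [← card_pos, card_sdiff_of_subset hTZ]; omega
        obtain ⟨w, hw⟩ := this
        rw [mem_sdiff] at hw
        apply card_pos.mpr
        refine ⟨w, mem_filter.mpr ⟨hw.1, ?_⟩⟩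
        have hzw : z ≠ w := fun he => hw.2 (by rw [← he]; exact hzT)
        exact (hfull w (hZA hw.1) hw.2 z (hZA hz) hzw).symm
      · left
        have hsub : Z.erase z ⊆ Z.filter (fun w => H.Adj z w) := by
          intro w hw
          rw [mem_erase] at hw
          exact mem_filter.mpr ⟨hw.2, hfull z (hZA hz) hzT w (hZA hw.2) hw.1⟩
        have h1 := card_le_card hsub
        have h2 := card_erase_add_one hz
        unfold dg
        omega

end graph

section main

variable {V : Type*} [Fintype V] [DecidableEq V] (H : SimpleGraph V) [DecidableRel H.Adj]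

/-- The main upper bound: a graph on `n ≤ 2K+2` vertices without a subset of exactly `K+3`
vertices inducing minimum degree at least two has at most `C(K+2,2) + (n-K-2)` edges. -/
theorem main_bound (K : ℕ) (h1 : K + 3 ≤ Fintype.card V) (h2 : Fintype.card V ≤ 2 * K + 2)
    (hno : ∀ S : Finset V, S.card = K + 3 → ∃ v ∈ S, dg H S v ≤ 1) :
    D H univ ≤ (K + 2) * (K + 1) + 2 * (Fintype.card V - (K + 2)) := by
  classical
  -- the densest `(K+3)`-set
  obtain ⟨S, hS, hSmax⟩ := exists_max_image ((univ : Finset V).powersetCard (K + 3)) (D H)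
    (powersetCard_nonempty.mpr (by rw [card_univ]; exact h1))
  rw [mem_powersetCard] at hS
  obtain ⟨v, hv, hv1⟩ := hno S hS.2
  obtain ⟨S', hS'⟩ : ∃ S', S' = S.erase v := ⟨_, rfl⟩
  have hS'card : S'.card = K + 2 := by
    have := card_erase_add_one hv
    rw [hS']; omega
  have hDS : D H S = D H S' + 2 * dg H S v := by rw [hS']; exact D_erase H S v hv
  obtain ⟨W, hW⟩ : ∃ W, W = S'ᶜ := ⟨_, rfl⟩
  have hWdisj : Disjoint S' W := by rw [hW]; exact disjoint_compl_right
  have hWunion : S' ∪ W = univ := by rw [hW]; exact union_compl S'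
  have hWcard : W.card = Fintype.card V - (K + 2) := by rw [hW, card_compl, hS'card]
  have hout : ∀ u ∈ W, dg H S' u ≤ 1 := by
    intro u hu
    by_cases huv : u = v
    · rw [huv, hS', dg_erase_self H S v hv]; exact hv1
    · have huS' : u ∉ S' := fun h => (disjoint_left.mp hWdisj) h hu
      have hmax := hSmax (insert u S') (by
        rw [mem_powersetCard]
        exact ⟨subset_univ _, by rw [card_insert_of_notMem huS', hS'card]⟩)
      rw [D_insert H S' u huS', hDS] at hmax
      omega
  have htot : D H univ = D H S' + D H W + 2 * ∑ b ∈ W, dg H S' b := by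
    rw [← hWunion]; exact D_union H S' W hWdisj
  have hcross : ∑ b ∈ W, dg H S' b ≤ W.card := by
    have := sum_le_card_nsmul W (fun b => dg H S' b) 1 hout
    simpa using this
  obtain ⟨M, hM⟩ : ∃ M, M = W.card := ⟨_, rfl⟩
  have hMK : M ≤ K := by omega
  rw [← hWcard, ← hM]
  by_contra hcon
  push Not at hcon
  obtain ⟨s, hs⟩ := D_even H S'
  obtain ⟨w, hw⟩ := D_even H W
  obtain ⟨T, hT⟩ : ∃ T, (K + 2) * (K + 1) = 2 * T := by
    have : Even ((K + 1) * (K + 2)) := Nat.even_mul_succ_self (K + 1)
    obtain ⟨T, hT⟩ := this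
    exact ⟨T, by rw [mul_comm]; omega⟩
  have hDle : ∀ A : Finset V, D H A ≤ A.card * (A.card - 1) := by
    intro A
    unfold D
    have : ∀ a ∈ A, dg H A a ≤ A.card - 1 := by
      intro a ha
      have := dg_lt H A a ha; omega
    calc ∑ v ∈ A, dg H A v ≤ ∑ v ∈ A, (A.card - 1) := sum_le_sum this
      _ = _ := by rw [sum_const, smul_eq_mul]
  have hsT : s ≤ T := by
    have := hDle S'
    rw [hS'card] at this
    have e : K + 2 - 1 = K + 1 := by omega
    rw [e] at this
    omega
  obtain ⟨y, hy⟩ : ∃ y, T = s + y := ⟨T - s, by omega⟩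
  rw [htot, hs, hw, hT] at hcon
  rw [← hM] at hcross
  rcases Nat.lt_or_ge y K with hyK | hyK
  · -- Case 1: few missing edges
    obtain ⟨X, hXW, hXne, hXc, hX2⟩ := exists_minimal H S' W hout (by rw [← hM, hw]; omega)
    have hXcard1 : 1 ≤ X.card := hXne.card_pos
    have hXcard2 : X.card ≤ M := by rw [hM]; exact card_le_card hXW
    have hXdisj : Disjoint S' X := hWdisj.mono_right hXW
    -- the attachments
    obtain ⟨Att, hAtt⟩ : ∃ Att, Att = X.biUnion (fun x => S'.filter (fun z => H.Adj x z)) :=
      ⟨_, rfl⟩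
    have hAttsub : Att ⊆ S' := by
      rw [hAtt, biUnion_subset]
      intro x _
      exact filter_subset _ _
    have hAttcard : Att.card ≤ 2 := by
      rw [hAtt]
      refine le_trans card_biUnion_le ?_
      exact hX2
    obtain ⟨Z, hZ1, hZ2, hZ3, hZ4⟩ := shrink H (X.card - 1) S' Att y hAttsub hAttcard
      (by omega) (by omega) (by
        rw [hS'card, hs]
        have e : K + 2 - 1 = K + 1 := by omega
        rw [e]
        omega)
    have hZX : Disjoint Z X := hXdisj.mono_left hZ1
    obtain ⟨u, hu, hu1⟩ := hno (Z ∪ X) (by rw [card_union_of_disjoint hZX]; omega)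
    rw [dg_union H Z X hZX] at hu1
    rw [mem_union] at hu
    rcases hu with hu | hu
    · rcases hZ4 u hu with h | ⟨huT, h⟩
      · omega
      · rw [hAtt, mem_biUnion] at huT
        obtain ⟨x, hx, hxu⟩ := huT
        rw [mem_filter] at hxu
        have : 0 < dg H X u := card_pos.mpr ⟨x, mem_filter.mpr ⟨hx, hxu.2.symm⟩⟩
        omega
    · have h3 := hXc u hu
      have h4 : dg H S' u ≤ dg H Z u := by
        apply card_le_card
        intro z hz
        refine mem_filter.mpr ⟨hZ2 ?_, (mem_filter.mp hz).2⟩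
        rw [hAtt, mem_biUnion]
        exact ⟨u, hu, hz⟩
      omega
  · -- Case 2: many missing edges
    obtain ⟨R, ρ, hR1, hR2, hR3⟩ := peel H S'
    obtain ⟨Tt, τ', hT1, hT2, hT3⟩ := peel H W
    rw [hS'card] at hR1 hR2 hR3
    rw [← hM] at hT1 hT2 hT3
    obtain ⟨τ, hτ⟩ : ∃ τ : ℕ → ℕ, ∀ j, τ j = τ' (M - 1 - j) := ⟨_, fun _ => rfl⟩
    have hsum : ∑ j ∈ range M, τ j = w := by
      have e1 : ∑ j ∈ range M, τ j = ∑ j ∈ range M, τ' j := by
        rw [← sum_range_reflect]
        apply sum_congr rfl
        intro j hj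
        rw [mem_range] at hj
        rw [hτ]
        congr 1
        omega
      rw [e1]
      omega
    have hρs : ∑ j ∈ range (K + 2), ρ j = s := by omega
    have hτle : ∀ j, j < M → τ j ≤ j := by
      intro j hj
      obtain ⟨a1, a2, a3, u, hu, a4⟩ := hT1 (M - 1 - j) (by omega)
      have := dg_lt H _ u hu
      rw [a4, a1] at this
      rw [hτ]; omega
    have hρle : ∀ j, j < K + 2 → ρ j + j + 1 ≤ K + 2 := by
      intro j hj
      obtain ⟨a1, a2, a3, u, hu, a4⟩ := hR1 j hj
      have := dg_lt H _ u hu
      rw [a4, a1] at this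
      omega
    have hwy : y + 1 ≤ w := by omega
    by_cases hex : ∃ j, j < M ∧ 2 ≤ τ j
    · have hkey := seq_main K M ρ τ hMK hρle hR2 hτle (by
        intro j hj
        rw [hτ, hτ]
        have := hT2 (M - 1 - (j + 1)) (by omega)
        have e : M - 1 - (j + 1) + 1 = M - 1 - j := by omega
        rw [e] at this
        exact this) (by
        intro j hj
        by_contra hc
        push Not at hc
        obtain ⟨hc1, hc2⟩ := hc
        obtain ⟨a1, a2, a3, -⟩ := hR1 j (by omega)
        obtain ⟨b1, b2, b3, -⟩ := hT1 (M - 1 - j) (by omega)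
        have hdisj : Disjoint (R j) (Tt (M - 1 - j)) :=
          (hWdisj.mono_left a2).mono_right b2
        obtain ⟨u, hu, hu1⟩ := hno (R j ∪ Tt (M - 1 - j)) (by
          rw [card_union_of_disjoint hdisj, a1, b1]; omega)
        rw [dg_union H _ _ hdisj] at hu1
        rw [mem_union] at hu
        rcases hu with hu | hu
        · have := a3 u hu; omega
        · have := b3 u hu
          rw [hτ] at hc2
          omega) hex
      have e1 : (∑ j ∈ range M, (τ j : ℤ)) = (w : ℤ) := by
        rw [← hsum]; push_cast; rfl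
      have e2 : Gs K ρ (K + 2) = (T : ℤ) - s := by
        unfold Gs
        rw [sum_sub_distrib]
        have e3 : (∑ j ∈ range (K + 2), (ρ j : ℤ)) = (s : ℤ) := by
          rw [← hρs]; push_cast; rfl
        rw [e3]
        have e4 : ∑ j ∈ range (K + 2), ((K : ℤ) + 1 - j) = (T : ℤ) := by
          rw [sum_sub_distrib, sum_const, card_range]
          have e5 : (∑ j ∈ range (K + 2), (j : ℤ)) * 2 = ((K : ℤ) + 2) * (K + 1) := by
            have := sum_range_id_mul_two (K + 2)
            have e6 : K + 2 - 1 = K + 1 := by omega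
            rw [e6] at this
            have h8 : (((∑ j ∈ range (K + 2), j) * 2 : ℕ) : ℤ) = (((K + 2) * (K + 1) : ℕ) : ℤ) := by
              rw [this]
            push_cast at h8
            exact h8
          have e7 : ((K : ℤ) + 2) * (K + 1) = 2 * T := by exact_mod_cast hT
          simp only [nsmul_eq_mul]
          push_cast
          linarith
        rw [e4]
      rw [e1, e2, hy] at hkey
      push_cast at hkey
      have : ((y + 1 : ℕ) : ℤ) ≤ w := by exact_mod_cast hwy
      push_cast at this
      linarith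
    · push Not at hex
      -- a forest
      have h3 : w + 1 ≤ M := by
        rw [← hsum]
        have hMpos : 0 < M := by omega
        obtain ⟨M', rfl⟩ : ∃ M', M = M' + 1 := ⟨M - 1, by omega⟩
        rw [sum_range_succ']
        have h0 := hτle 0 (by omega)
        have h4 : ∑ k ∈ range M', τ (k + 1) ≤ M' := by
          have := sum_le_card_nsmul (range M') (fun k => τ (k + 1)) 1 (by
            intro k hk
            rw [mem_range] at hk
            have := hex (k + 1) (by omega)
            omega)
          simpa using this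
        omega
      omega

end main

/-- `G` has property `P_k`: every set `S` of exactly `k + 2` vertices contains a vertex which is
adjacent to at least `k` vertices of `S`. -/
def HasP {n : ℕ} (k : ℕ) (G : SimpleGraph (Fin n)) : Prop :=
  ∀ S : Finset (Fin n), S.card = k + 2 → ∃ v ∈ S, k ≤ {w | w ∈ S ∧ G.Adj v w}.ncard

/-- The smallest number of edges of a graph on `n` vertices with property `P_k`. -/
noncomputable def f (n k : ℕ) : ℕ :=
  sInf {e | ∃ G : SimpleGraph (Fin n), HasP k G ∧ G.edgeSet.ncard = e}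

section final

variable {n : ℕ}

lemma ncard_eq_dg (G : SimpleGraph (Fin n)) [DecidableRel G.Adj] (S : Finset (Fin n))
    (v : Fin n) : {w | w ∈ S ∧ G.Adj v w}.ncard = dg G S v := by
  unfold dg
  rw [← Set.ncard_coe_finset]
  congr 1
  ext w
  simp

lemma dg_compl (G : SimpleGraph (Fin n)) [DecidableRel G.Adj] [DecidableRel Gᶜ.Adj]
    (S : Finset (Fin n)) (v : Fin n) (hv : v ∈ S) : dg G S v + dg Gᶜ S v + 1 = S.card := by
  unfold dg
  rw [← card_union_of_disjoint]
  · have : S.filter (fun w => G.Adj v w) ∪ S.filter (fun w => Gᶜ.Adj v w) = S.erase v := by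
      ext w
      simp only [mem_union, mem_filter, mem_erase, SimpleGraph.compl_adj]
      constructor
      · rintro (⟨h1, h2⟩ | ⟨h1, h2, -⟩)
        · exact ⟨(G.ne_of_adj h2).symm, h1⟩
        · exact ⟨fun h => h2 h.symm, h1⟩
      · rintro ⟨h1, h2⟩
        by_cases h : G.Adj v w
        · exact Or.inl ⟨h2, h⟩
        · exact Or.inr ⟨h2, fun he => h1 he.symm, h⟩
    rw [this]
    exact card_erase_add_one hv
  · rw [disjoint_left]
    intro w h1 h2
    rw [mem_filter] at h1 h2
    exact h2.2.2 h1.2

lemma D_univ (G : SimpleGraph (Fin n)) [DecidableRel G.Adj] :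
    D G univ = 2 * G.edgeSet.ncard := by
  have h := G.sum_degrees_eq_twice_card_edges
  have h2 : G.edgeSet.ncard = G.edgeFinset.card := by
    rw [← SimpleGraph.coe_edgeFinset, Set.ncard_coe_finset]
  rw [h2, ← h]
  unfold D
  apply sum_congr rfl
  intro v _
  unfold dg
  rw [← SimpleGraph.card_neighborFinset_eq_degree, SimpleGraph.neighborFinset_eq_filter]

lemma D_compl (G : SimpleGraph (Fin n)) [DecidableRel G.Adj] [DecidableRel Gᶜ.Adj] :
    D G univ + D Gᶜ univ + n = n * n := by
  unfold D
  rw [← sum_add_distrib]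
  have h : ∀ v ∈ (univ : Finset (Fin n)), dg G univ v + dg Gᶜ univ v + 1 = n := by
    intro v hv
    have := dg_compl G univ v hv
    rw [card_univ, Fintype.card_fin] at this
    exact this
  have h2 : ∑ v ∈ (univ : Finset (Fin n)), (dg G univ v + dg Gᶜ univ v + 1) = n * n := by
    rw [sum_congr rfl h, sum_const, card_univ, Fintype.card_fin, smul_eq_mul]
  rw [sum_add_distrib (f := fun v => dg G univ v + dg Gᶜ univ v), sum_const, card_univ,
    Fintype.card_fin, smul_eq_mul, mul_one] at h2
  exact h2

lemma choose_two_mul (a : ℕ) : 2 * a.choose 2 = a * (a - 1) := by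
  rw [Nat.choose_two_right, Nat.mul_div_cancel' (Nat.even_mul_pred_self a).two_dvd]

/-- If `H` has no closed `(k+2)`-set, its complement has `P_k`. -/
lemma hasP_compl (k : ℕ) (H : SimpleGraph (Fin n)) [DecidableRel H.Adj]
    (h : ∀ S : Finset (Fin n), S.card = k + 2 → ∃ v ∈ S, dg H S v ≤ 1) : HasP k Hᶜ := by
  classical
  intro S hS
  obtain ⟨v, hv, hv1⟩ := h S hS
  refine ⟨v, hv, ?_⟩
  rw [ncard_eq_dg]
  have := dg_compl H S v hv
  omega

lemma back_degree (H : SimpleGraph (Fin n)) [DecidableRel H.Adj] :
    D H univ = 2 * ∑ i : Fin n, (univ.filter (fun j => j < i ∧ H.Adj i j)).card := by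
  have h1 : ∀ i : Fin n, dg H univ i = (univ.filter (fun j => j < i ∧ H.Adj i j)).card
      + (univ.filter (fun j => i < j ∧ H.Adj i j)).card := by
    intro i
    unfold dg
    rw [← card_union_of_disjoint]
    · congr 1
      ext j
      simp only [mem_filter, mem_univ, true_and, mem_union]
      constructor
      · intro h
        rcases lt_trichotomy j i with hji | hji | hji
        · exact Or.inl ⟨hji, h⟩
        · rw [hji] at h; exact absurd h (H.irrefl)
        · exact Or.inr ⟨hji, h⟩
      · rintro (h | h)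
        · exact h.2
        · exact h.2
    · rw [disjoint_left]
      intro j h1 h2
      rw [mem_filter] at h1 h2
      exact absurd h1.2.1 (not_lt.mpr h2.2.1.le)
  have h2 : ∑ i : Fin n, (univ.filter (fun j => i < j ∧ H.Adj i j)).card
      = ∑ i : Fin n, (univ.filter (fun j => j < i ∧ H.Adj i j)).card := by
    simp only [card_filter]
    rw [sum_comm]
    apply sum_congr rfl
    intro i _
    apply sum_congr rfl
    intro j _
    simp [H.adj_comm]
  unfold D
  rw [sum_congr rfl (fun i _ => h1 i), sum_add_distrib, h2]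
  ring

/-- The clique on the vertices `0, ..., k` with all further vertices attached to `0`. -/
def H0 (n k : ℕ) : SimpleGraph (Fin n) :=
  SimpleGraph.fromRel (fun i j => (i.val ≤ k ∧ j.val ≤ k) ∨ (i.val = 0 ∧ k < j.val))

/-- The clique on the vertices `0, ..., k`, a cycle through `0, k+1, ..., 2k`, and all further
vertices attached to `0`. -/
def H1 (n k : ℕ) : SimpleGraph (Fin n) :=
  SimpleGraph.fromRel (fun i j => (i.val ≤ k ∧ j.val ≤ k) ∨
    (i.val = 0 ∧ (j.val = k + 1 ∨ 2 * k ≤ j.val)) ∨ (k < i.val ∧ j.val = i.val + 1 ∧ j.val ≤ 2 * k))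

lemma H0_noclosed (k : ℕ) [DecidableRel (H0 n k).Adj] (S : Finset (Fin n)) (hS : S.card = k + 2) :
    ∃ v ∈ S, dg (H0 n k) S v ≤ 1 := by
  -- some vertex of `S` is larger than `k`
  have hex : ∃ v ∈ S, k < v.val := by
    by_contra hc
    push Not at hc
    have : S.card ≤ (range (k + 1)).card := by
      apply card_le_card_of_injOn (fun v => v.val)
      · intro v hv
        have := hc v hv
        simp only [coe_range, Set.mem_Iio]; omega
      · intro a _ b _ hab
        exact Fin.ext hab
    rw [card_range] at this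
    omega
  obtain ⟨v, hv, hvk⟩ := hex
  refine ⟨v, hv, ?_⟩
  unfold dg
  rw [card_le_one]
  intro a ha b hb
  rw [mem_filter] at ha hb
  have ha' := ha.2
  have hb' := hb.2
  simp only [H0, SimpleGraph.fromRel_adj] at ha' hb'
  apply Fin.ext
  omega

lemma H1_noclosed (k : ℕ) (hk : 2 ≤ k) [DecidableRel (H1 n k).Adj] (S : Finset (Fin n))
    (hS : S.card = k + 2) : ∃ v ∈ S, dg (H1 n k) S v ≤ 1 := by
  by_contra hcon
  push Not at hcon
  -- two distinct neighbours
  have two : ∀ v ∈ S, ∃ a ∈ S, ∃ b ∈ S, a ≠ b ∧ (H1 n k).Adj v a ∧ (H1 n k).Adj v b := by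
    intro v hv
    have := hcon v hv
    unfold dg at this
    obtain ⟨a, ha, b, hb, hab⟩ := one_lt_card.mp this
    rw [mem_filter] at ha hb
    exact ⟨a, ha.1, b, hb.1, hab, ha.2, hb.2⟩
  have hle : ∀ v ∈ S, v.val ≤ 2 * k := by
    intro v hv
    by_contra hc
    push Not at hc
    obtain ⟨a, ha, b, hb, hab, h1, h2⟩ := two v hv
    simp only [H1, SimpleGraph.fromRel_adj] at h1 h2
    apply hab
    apply Fin.ext
    omega
  -- a vertex on the path
  have hex : ∃ v ∈ S, k < v.val := by
    by_contra hc
    push Not at hc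
    have : S.card ≤ (range (k + 1)).card := by
      apply card_le_card_of_injOn (fun v => v.val)
      · intro v hv
        have := hc v hv
        simp only [coe_range, Set.mem_Iio]; omega
      · intro a _ b _ hab
        exact Fin.ext hab
    rw [card_range] at this
    omega
  obtain ⟨v, hv, hvk⟩ := hex
  -- propagation up
  have up : ∀ w ∈ S, k < w.val → w.val < 2 * k → ∃ w' ∈ S, w'.val = w.val + 1 := by
    intro w hw h1 h2
    obtain ⟨a, ha, b, hb, hab, h3, h4⟩ := two w hw
    simp only [H1, SimpleGraph.fromRel_adj] at h3 h4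
    have hab' : a.val ≠ b.val := fun h => hab (Fin.ext h)
    by_cases ha1 : a.val = w.val + 1
    · exact ⟨a, ha, ha1⟩
    · exact ⟨b, hb, by omega⟩
  have down : ∀ w ∈ S, k + 1 < w.val → ∃ w' ∈ S, w'.val + 1 = w.val := by
    intro w hw h1
    have h2 := hle w hw
    obtain ⟨a, ha, b, hb, hab, h3, h4⟩ := two w hw
    simp only [H1, SimpleGraph.fromRel_adj] at h3 h4
    have hab' : a.val ≠ b.val := fun h => hab (Fin.ext h)
    by_cases ha1 : a.val + 1 = w.val
    · exact ⟨a, ha, ha1⟩
    · exact ⟨b, hb, by omega⟩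
  have hup : ∀ t, v.val + t ≤ 2 * k → ∃ w ∈ S, w.val = v.val + t := by
    intro t
    induction t with
    | zero => intro _; exact ⟨v, hv, rfl⟩
    | succ t ih =>
      intro ht
      obtain ⟨w, hw, hwt⟩ := ih (by omega)
      obtain ⟨w', hw', hwt'⟩ := up w hw (by omega) (by omega)
      exact ⟨w', hw', by omega⟩
  have hdown : ∀ t, k + 1 + t ≤ v.val → ∃ w ∈ S, w.val = v.val - t := by
    intro t
    induction t with
    | zero => intro _; exact ⟨v, hv, rfl⟩
    | succ t ih =>
      intro ht
      obtain ⟨w, hw, hwt⟩ := ih (by omega)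
      obtain ⟨w', hw', hwt'⟩ := down w hw (by omega)
      exact ⟨w', hw', by omega⟩
  have hall : ∀ m, k + 1 ≤ m → m ≤ 2 * k → ∃ w ∈ S, w.val = m := by
    intro m h1 h2
    rcases le_total v.val m with h | h
    · obtain ⟨w, hw, hwm⟩ := hup (m - v.val) (by omega)
      exact ⟨w, hw, by omega⟩
    · obtain ⟨w, hw, hwm⟩ := hdown (v.val - m) (by omega)
      exact ⟨w, hw, by omega⟩
  -- at most one vertex among `1, ..., k`
  have hone : (S.filter (fun w => 1 ≤ w.val ∧ w.val ≤ k)).card ≤ 2 := by
    have h1 : (Finset.Icc (k + 1) (2 * k)).card ≤ (S.filter (fun w => k < w.val)).card := by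
      apply card_le_card_of_surjOn (fun w => w.val)
      intro m hm
      simp only [coe_Icc, Set.mem_Icc] at hm
      obtain ⟨w, hw, hwm⟩ := hall m hm.1 hm.2
      exact ⟨w, by simp [hw, hwm]; omega, hwm⟩
    rw [Nat.card_Icc] at h1
    have h2 : (S.filter (fun w => 1 ≤ w.val ∧ w.val ≤ k)).card
        + (S.filter (fun w => k < w.val)).card ≤ S.card := by
      rw [← card_union_of_disjoint]
      · exact card_le_card (union_subset (filter_subset _ _) (filter_subset _ _))
      · rw [disjoint_left]
        intro w h3 h4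
        rw [mem_filter] at h3 h4
        omega
    omega
  have hzero : ∃ z ∈ S, z.val = 0 := by
    obtain ⟨w, hw, hwm⟩ := hall (k + 1) le_rfl (by omega)
    obtain ⟨a, ha, b, hb, hab, h3, h4⟩ := two w hw
    simp only [H1, SimpleGraph.fromRel_adj] at h3 h4
    have hab' : a.val ≠ b.val := fun h => hab (Fin.ext h)
    by_cases ha1 : a.val = 0
    · exact ⟨a, ha, ha1⟩
    · exact ⟨b, hb, by omega⟩
  have hone' : (S.filter (fun w => 1 ≤ w.val ∧ w.val ≤ k)).card = 1 := by
    obtain ⟨z, hz, hz0⟩ := hzero
    have h1 : (S.filter (fun w => k < w.val)).card = k := by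
      apply le_antisymm
      · have : (S.filter (fun w => k < w.val)).card ≤ (Finset.Icc (k + 1) (2 * k)).card := by
          apply card_le_card_of_injOn (fun w => w.val)
          · intro w hw
            simp only [coe_filter, Set.mem_ofPred_eq] at hw
            simp only [coe_Icc, Set.mem_Icc]
            exact ⟨hw.2, hle w hw.1⟩
          · intro a _ b _ hab
            exact Fin.ext hab
        rw [Nat.card_Icc] at this
        omega
      · have : (Finset.Icc (k + 1) (2 * k)).card ≤ (S.filter (fun w => k < w.val)).card := by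
          apply card_le_card_of_surjOn (fun w => w.val)
          intro m hm
          simp only [coe_Icc, Set.mem_Icc] at hm
          obtain ⟨w, hw, hwm⟩ := hall m hm.1 hm.2
          exact ⟨w, by simp [hw, hwm]; omega, hwm⟩
        rw [Nat.card_Icc] at this
        omega
    have h2 : (S.filter (fun w => w.val = 0)).card = 1 := by
      rw [card_eq_one]
      refine ⟨z, ?_⟩
      ext w
      simp only [mem_filter, mem_singleton]
      constructor
      · rintro ⟨_, h⟩; exact Fin.ext (by omega)
      · rintro rfl; exact ⟨hz, hz0⟩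
    have h3 : S = (S.filter (fun w => 1 ≤ w.val ∧ w.val ≤ k) ∪ S.filter (fun w => k < w.val))
        ∪ S.filter (fun w => w.val = 0) := by
      ext w
      simp only [mem_union, mem_filter]
      constructor
      · intro h
        rcases Nat.lt_or_ge k w.val with h4 | h4
        · exact Or.inl (Or.inr ⟨h, h4⟩)
        · rcases Nat.eq_zero_or_pos w.val with h5 | h5
          · exact Or.inr ⟨h, h5⟩
          · exact Or.inl (Or.inl ⟨h, h5, h4⟩)
      · rintro ((h | h) | h) <;> exact h.1
    have h4 := congrArg Finset.card h3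
    rw [card_union_of_disjoint, card_union_of_disjoint, h1, h2, hS] at h4
    · omega
    · rw [disjoint_left]
      intro w h3 h4
      rw [mem_filter] at h3 h4
      omega
    · rw [disjoint_left]
      intro w h3 h4
      rw [mem_union, mem_filter, mem_filter] at h3
      rw [mem_filter] at h4
      omega
  obtain ⟨z, hz⟩ := card_eq_one.mp hone'
  have hzS : z ∈ S.filter (fun w => 1 ≤ w.val ∧ w.val ≤ k) := by rw [hz]; exact mem_singleton_self z
  rw [mem_filter] at hzS
  obtain ⟨a, ha, b, hb, hab, h3, h4⟩ := two z hzS.1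
  have hin : ∀ w ∈ S, (H1 n k).Adj z w → w.val = 0 := by
    intro w hw hadj
    simp only [H1, SimpleGraph.fromRel_adj] at hadj
    by_contra hw0
    have hwk : w.val ≤ k := by omega
    have hwz : w ∈ S.filter (fun w => 1 ≤ w.val ∧ w.val ≤ k) := by
      rw [mem_filter]; exact ⟨hw, by omega, hwk⟩
    rw [hz, mem_singleton] at hwz
    exact hadj.1 hwz.symm
  exact hab (Fin.ext ((hin a ha h3).trans (hin b hb h4).symm))

end final

section counts

variable {n : ℕ}

lemma sum_clique (k : ℕ) (hn : k + 1 ≤ n) :
    2 * ∑ i ∈ range n, (if i ≤ k then i else 1) = (k + 1) * k + 2 * (n - (k + 1)) := by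
  obtain ⟨m, rfl⟩ : ∃ m, n = k + 1 + m := ⟨n - (k + 1), by omega⟩
  induction m with
  | zero =>
    have h1 : ∑ i ∈ range (k + 1 + 0), (if i ≤ k then i else 1) = ∑ i ∈ range (k + 1), i := by
      apply sum_congr rfl
      intro i hi
      rw [mem_range] at hi
      rw [if_pos (by omega)]
    rw [h1]
    have := sum_range_id_mul_two (k + 1)
    have e : k + 1 - 1 = k := by omega
    rw [e] at this
    omega
  | succ m ih =>
    have := ih (by omega)
    rw [← add_assoc, sum_range_succ, if_neg (by omega)]
    omega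

lemma back_le (k : ℕ) (H : SimpleGraph (Fin n)) [DecidableRel H.Adj]
    (hcl : ∀ i j : Fin n, i.val ≤ k → j.val ≤ k → i ≠ j → H.Adj i j) (i : Fin n)
    (hi : i.val ≤ k) : i.val ≤ (univ.filter (fun j => j < i ∧ H.Adj i j)).card := by
  have : (Finset.Iio i).card ≤ (univ.filter (fun j => j < i ∧ H.Adj i j)).card := by
    apply card_le_card
    intro j hj
    rw [mem_Iio] at hj
    simp only [mem_filter, mem_univ, true_and]
    refine ⟨hj, hcl i j hi ?_ (ne_of_gt hj)⟩
    have : j.val < i.val := hj
    omega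
  rwa [Fin.card_Iio] at this

lemma H0_count (k : ℕ) (hn : k + 1 ≤ n) [DecidableRel (H0 n k).Adj] :
    (k + 1) * k + 2 * (n - (k + 1)) ≤ D (H0 n k) univ := by
  rw [back_degree, ← sum_clique k hn]
  apply Nat.mul_le_mul_left
  rw [← Fin.sum_univ_eq_sum_range (fun i => if i ≤ k then i else 1) n]
  apply sum_le_sum
  intro i _
  split_ifs with h
  · apply back_le k (H0 n k) _ i h
    intro a b ha hb hab
    simp only [H0, SimpleGraph.fromRel_adj]
    exact ⟨hab, Or.inl (Or.inl ⟨ha, hb⟩)⟩
  · apply card_pos.mpr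
    refine ⟨⟨0, by omega⟩, ?_⟩
    simp only [mem_filter, mem_univ, true_and, H0, SimpleGraph.fromRel_adj]
    refine ⟨?_, ?_, ?_⟩
    · rw [Fin.lt_def]; show 0 < i.val; omega
    · intro he; rw [he] at h; simp at h
    · right; right; omega

lemma H1_count (k : ℕ) (hk : 2 ≤ k) (hn : 2 * k + 1 ≤ n) [DecidableRel (H1 n k).Adj] :
    (k + 1) * k + 2 * (n - (k + 1)) + 2 ≤ D (H1 n k) univ := by
  rw [back_degree, ← sum_clique k (by omega : k + 1 ≤ n), ← mul_add_one]
  apply Nat.mul_le_mul_left
  have h1 : ∑ i ∈ range n, (if i ≤ k then i else 1) + 1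
      = ∑ i ∈ range n, ((if i ≤ k then i else 1) + if i = 2 * k then 1 else 0) := by
    rw [sum_add_distrib, sum_ite_eq' (range n) (2 * k)]
    simp only [mem_range]
    rw [if_pos (by omega)]
  rw [h1, ← Fin.sum_univ_eq_sum_range
    (fun i => (if i ≤ k then i else 1) + if i = 2 * k then 1 else 0) n]
  apply sum_le_sum
  intro i _
  by_cases h : i.val ≤ k
  · rw [if_pos h, if_neg (by omega)]
    apply back_le k (H1 n k) _ i h
    intro a b ha hb hab
    simp only [H1, SimpleGraph.fromRel_adj]
    exact ⟨hab, Or.inl (Or.inl ⟨ha, hb⟩)⟩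
  · rw [if_neg h]
    by_cases h2 : i.val = 2 * k
    · rw [if_pos h2]
      have : 1 < (univ.filter (fun j => j < i ∧ (H1 n k).Adj i j)).card := by
        rw [one_lt_card]
        refine ⟨⟨0, by omega⟩, ?_, ⟨2 * k - 1, by omega⟩, ?_, ?_⟩
        · simp only [mem_filter, mem_univ, true_and, H1, SimpleGraph.fromRel_adj, Fin.lt_def]
          refine ⟨by omega, fun he => ?_, ?_⟩
          · rw [he] at h2; simp at h2; omega
          · right; right; left; omega
        · simp only [mem_filter, mem_univ, true_and, H1, SimpleGraph.fromRel_adj, Fin.lt_def]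
          refine ⟨by omega, fun he => ?_, ?_⟩
          · rw [he] at h2; simp at h2; omega
          · right; right; right; omega
        · intro he
          rw [Fin.mk.injEq] at he
          omega
      omega
    · rw [if_neg h2, add_zero]
      apply card_pos.mpr
      rcases Nat.lt_or_ge i.val (2 * k) with h3 | h3
      · by_cases h4 : i.val = k + 1
        · refine ⟨⟨0, by omega⟩, ?_⟩
          simp only [mem_filter, mem_univ, true_and, H1, SimpleGraph.fromRel_adj, Fin.lt_def]
          refine ⟨by omega, fun he => ?_, ?_⟩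
          · rw [he] at h4; simp at h4
          · right; right; left; omega
        · refine ⟨⟨i.val - 1, by omega⟩, ?_⟩
          simp only [mem_filter, mem_univ, true_and, H1, SimpleGraph.fromRel_adj, Fin.lt_def]
          refine ⟨by omega, fun he => ?_, ?_⟩
          · have := congrArg Fin.val he
            simp at this; omega
          · right; right; right; omega
      · refine ⟨⟨0, by omega⟩, ?_⟩
        simp only [mem_filter, mem_univ, true_and, H1, SimpleGraph.fromRel_adj, Fin.lt_def]
        refine ⟨by omega, fun he => ?_, ?_⟩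
        · rw [he] at h3; simp at h3; omega
        · right; right; left; omega

/-- `n(n-1) - (k+1)k - 2(n-k-1) = (n-1)(n-2) - k(k-1)`, in additive form. -/
lemma arith (n k : ℕ) (hn : k + 1 ≤ n) (x : ℕ) :
    (x + ((k + 1) * k + 2 * (n - (k + 1))) + n = n * n) ↔
      (x + 2 * k.choose 2 = 2 * (n - 1).choose 2) := by
  obtain ⟨m, rfl⟩ : ∃ m, n = k + 1 + m := ⟨n - (k + 1), by omega⟩
  rw [choose_two_mul, choose_two_mul]
  have e1 : k + 1 + m - (k + 1) = m := by omega
  have e2 : k + 1 + m - 1 = k + m := by omega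
  rw [e1, e2]
  have e3 : (k + 1 + m) * (k + 1 + m) = (k + m) * (k + m) + 2 * (k + m) + 1 := by ring
  have e4 : (k + m) * (k + m - 1) + (k + m) = (k + m) * (k + m) := by
    rcases Nat.eq_zero_or_pos (k + m) with h | h
    · rw [h]
    · obtain ⟨q, hq⟩ : ∃ q, k + m = q + 1 := ⟨k + m - 1, by omega⟩
      rw [hq, Nat.add_sub_cancel]; ring
  have e5 : k * (k - 1) + k = k * k := by
    rcases Nat.eq_zero_or_pos k with h | h
    · rw [h]
    · obtain ⟨q, hq⟩ : ∃ q, k = q + 1 := ⟨k - 1, by omega⟩
      rw [hq, Nat.add_sub_cancel]; ring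
  have e6 : (k + 1) * k = k * k + k := by ring
  rw [e3, e6]
  omega

/-- upper bound for `f` from a graph without closed `(k+2)`-sets -/
lemma f_le (n k : ℕ) (H : SimpleGraph (Fin n)) [DecidableRel H.Adj]
    (h : ∀ S : Finset (Fin n), S.card = k + 2 → ∃ v ∈ S, dg H S v ≤ 1) :
    2 * f n k + D H univ + n ≤ n * n := by
  classical
  have h1 : f n k ≤ Hᶜ.edgeSet.ncard := Nat.sInf_le ⟨Hᶜ, hasP_compl k H h, rfl⟩
  have h2 := D_univ Hᶜ
  have h3 := D_compl H
  omega

/-- lower bound for `f` in the range `n ≤ 2k` -/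
lemma le_f (n k : ℕ) (hk : 2 ≤ k) (hn : k + 2 ≤ n) (hn2 : n ≤ 2 * k) :
    n * n ≤ 2 * f n k + ((k + 1) * k + 2 * (n - (k + 1))) + n := by
  classical
  have hne : {e | ∃ G : SimpleGraph (Fin n), HasP k G ∧ G.edgeSet.ncard = e}.Nonempty :=
    ⟨_, (H0 n k)ᶜ, hasP_compl k (H0 n k) (H0_noclosed k), rfl⟩
  obtain ⟨G, hG, hGf⟩ := Nat.sInf_mem hne
  obtain ⟨K, rfl⟩ : ∃ K, k = K + 1 := ⟨k - 1, by omega⟩
  have h1 := main_bound Gᶜ K (by rw [Fintype.card_fin]; omega) (by rw [Fintype.card_fin]; omega)
    (by
      intro S hS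
      obtain ⟨v, hv, hv1⟩ := hG S (by omega)
      refine ⟨v, hv, ?_⟩
      rw [ncard_eq_dg] at hv1
      have := dg_compl G S v hv
      omega)
  rw [Fintype.card_fin] at h1
  have h2 := D_univ G
  have h3 := D_compl G
  have h4 : f n (K + 1) = G.edgeSet.ncard := hGf.symm
  rw [h4]
  have e1 : K + 1 + 1 = K + 2 := by omega
  rw [e1]
  omega

end counts

/-- For all `k ≥ 2` and `n ≥ k + 2`: `f(n,k) ≤ C(n-1,2) - C(k,2)`, with equality if and only if
`n ≤ 2k`. -/
theorem result : ∀ n k : ℕ, 2 ≤ k → k + 2 ≤ n →
    f n k + k.choose 2 ≤ (n - 1).choose 2 ∧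
    (f n k + k.choose 2 = (n - 1).choose 2 ↔ n ≤ 2 * k) := by
  intro n k hk hn
  classical
  have hle : f n k + k.choose 2 ≤ (n - 1).choose 2 := by
    have h1 := f_le n k (H0 n k) (H0_noclosed k)
    have h2 := H0_count (n := n) k (by omega)
    obtain ⟨x, hx⟩ : ∃ x, x + ((k + 1) * k + 2 * (n - (k + 1))) + n = n * n :=
      ⟨n * n - n - ((k + 1) * k + 2 * (n - (k + 1))), by omega⟩
    have h3 := (arith n k (by omega) x).mp hx
    omega
  refine ⟨hle, ?_, ?_⟩
  · intro heq
    by_contra hc
    push Not at hc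
    have h1 := f_le n k (H1 n k) (H1_noclosed k hk)
    have h2 := H1_count (n := n) k hk (by omega)
    have h3 := (arith n k (by omega) (2 * f n k)).mpr (by omega)
    omega
  · intro hn2
    have h1 := le_f n k hk hn hn2
    obtain ⟨x, hx⟩ : ∃ x, x + ((k + 1) * k + 2 * (n - (k + 1))) + n = n * n := by
      have h1' := f_le n k (H0 n k) (H0_noclosed k)
      have h2 := H0_count (n := n) k (by omega)
      exact ⟨n * n - n - ((k + 1) * k + 2 * (n - (k + 1))), by omega⟩
    have h3 := (arith n k (by omega) x).mp hx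
    omega

end Pool.Agent.Results.MP_d31508_co.CliqueRange
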