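import Pool.Agent.Lib.MP_d31508_co.Asy.Core
import Pool.Agent.Lib.MP_d31508_co.Asy.Flex
import Pool.Agent.Lib.MP_d31508_co.Asy.Gadget
import Pool.Agent.Lib.MP_d31508_co.Asy.Glue
import Pool.Agent.Lib.MP_d31508_co.Asy.Compl
import Pool.Agent.Lib.MP_d31508_co.Asy.Main
import Pool.Agent.Lib.MP_d31508_co.Asy.Final
import Pool.Agent.Lib.MP_d31508_co.Asy.Band
import Pool.Agent.Lib.MP_d31508_co.Asy.Path
import Pool.Agent.Lib.MP_d31508_co.Asy.Word
import Pool.Agent.Lib.MP_d31508_co.Asy.Arc
import Pool.Agent.Lib.MP_d31508_co.Asy.Bfs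
import Pool.Agent.Lib.MP_d31508_co.Asy.Aug
import Pool.Agent.Lib.MP_d31508_co.Asy.Girth

/-!
# Fewest edges forcing induced maximum degree `k` on `(k+2)`-sets: all `n ≥ 2k`

With `f(n,k) = C(n,2) - C(k+1,2) - δ(n,k)` we prove
`n^(1 + 1/(k+2)) / 32 ≤ δ(n,k) ≤ 300 n^(1 + 86/(k+2))` for all `k ≥ 2`, `n ≥ 2k`.

Outline (complement `H`, `m = k + 2`, closed set = vertex set of minimum degree at least two).
Upper bound for `δ`: a dense `H` contains a set `W`, `|W| ≥ m`, of large minimum degree. Three
flexible vertices and a chain of closed sets with steps as small as possible are combined with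
gadgets in the rest, whose sizes fill a window longer than the next step; the gadgets come from a
long path inside one or two consecutive layers of a breadth first search tree.
Lower bound: `K_(m-1)` together with a graph without small closed sets.
-/

namespace Pool.Agent.Results.MP_d31508_co.AllRanges

open Pool.Agent.Lib.MP_d31508_co.Asy

theorem result : ∀ n k : ℕ, 2 ≤ k → 2 * k ≤ n →
    (f n k : ℝ) + (k + 1).choose 2 + (1 / 32) * (n : ℝ) ^ (1 + 1 / ((k : ℝ) + 2)) ≤ n.choose 2 ∧
    (n.choose 2 : ℝ) ≤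
      (f n k : ℝ) + (k + 1).choose 2 + 300 * (n : ℝ) ^ (1 + 86 / ((k : ℝ) + 2)) :=
  stFinal stCore
    (stMain (stFlex (stAug stBfs)) (stGadget stBfs (stBand stSub) stPath stWord stArc))
    (stGlue (stGirth stBfs)) stCompl

end Pool.Agent.Results.MP_d31508_co.AllRanges
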