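import Pool.Agent.Lib.MP_d31508_co.Sharp.FinalG2

/-!
# MP_d31508_co: `f(n,k)` and the girth problem

For all `n ≥ k + 2` with `C log n log k ≤ k` the number `f(n,k)` is determined up to the classical
problem of the maximum number `ex(N, g)` of edges of a graph on `N` vertices with girth at least
`g`: up to replacing girth `k + 3` by girth `k`, the number `C(n,2) - f(n,k)` is the maximum of
`C(k+1,2) + ex(n-k, k)` and of `E(n,k) = ⌊3(n-1)/2⌋` (`k` even), `⌊3n/2⌋ - 2` (`k` odd).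
For `2k + 1 ≤ n ≤ (5k-3)/2` this gives `f(n,k) = C(n,2) - C(k+1,2) - (n-k)`.
-/

namespace Pool.Agent.Results.MP_d31508_co.GirthReduction

/-- `G` has the property `P_k`: every set of exactly `k + 2` vertices contains a vertex adjacent
to at least `k` vertices of the set -/
def HasP {n : ℕ} (k : ℕ) (G : SimpleGraph (Fin n)) : Prop :=
  ∀ S : Finset (Fin n), S.card = k + 2 → ∃ v ∈ S, k ≤ {w | w ∈ S ∧ G.Adj v w}.ncard

/-- `f(n,k)`, the least number of edges of a graph on `n` vertices with the property `P_k` -/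
noncomputable def f (n k : ℕ) : ℕ :=
  sInf {e | ∃ G : SimpleGraph (Fin n), HasP k G ∧ G.edgeSet.ncard = e}

/-- `⌊3(n-1)/2⌋` for even `k`, `⌊3n/2⌋ - 2` for odd `k` -/
def E (n k : ℕ) : ℕ := if Even k then 3 * (n - 1) / 2 else 3 * n / 2 - 2

/-- `ex(N, g)`, the largest number of edges of a graph on `N` vertices which has no cycle of
length less than `g` (Mathlib's `egirth` is the least length of a cycle, and is infinite for a
forest) -/
noncomputable def ex (N g : ℕ) : ℕ :=
  sSup {e | ∃ F : SimpleGraph (Fin N), (g : ℕ∞) ≤ F.egirth ∧ F.edgeSet.ncard = e}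

/-- There is `C > 0` such that for all `k ≥ 2` and `n ≥ k + 2` with `C log n log k ≤ k`:
`max (C(k+1,2) + ex(n-k, k+3), E(n,k)) ≤ C(n,2) - f(n,k) ≤ max (C(k+1,2) + ex(n-k, k), E(n,k))`,
and `C(n,2) - f(n,k) = C(k+1,2) + (n-k)` if `2k + 1 ≤ n ≤ (5k-3)/2`. -/
theorem result : ∃ C : ℝ, 0 < C ∧ ∀ n k : ℕ, 2 ≤ k → k + 2 ≤ n →
    C * (Real.log n * Real.log k) ≤ k →
    max ((k + 1).choose 2 + ex (n - k) (k + 3)) (E n k) + f n k ≤ n.choose 2 ∧
    n.choose 2 ≤ f n k + max ((k + 1).choose 2 + ex (n - k) k) (E n k) ∧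
    (2 * k + 1 ≤ n → 2 * n + 3 ≤ 5 * k → f n k + (k + 1).choose 2 + (n - k) = n.choose 2) :=
  Pool.Agent.Lib.MP_d31508_co.Sharp.girth_final

end Pool.Agent.Results.MP_d31508_co.GirthReduction
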