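import Pool.Agent.Lib.MP_d31508_co.Sharp.MainM
import Pool.Agent.Lib.MP_d31508_co.Shp.Thin
import Pool.Agent.Lib.MP_d31508_co.Shr.Ext
import Pool.Agent.Lib.MP_d31508_co.Shr.BigG
import Pool.Agent.Lib.MP_d31508_co.Shr.SelL
import Pool.Agent.Lib.MP_d31508_co.Shr.FlexG
import Pool.Agent.Lib.MP_d31508_co.Shr.IncG
import Pool.Agent.Lib.MP_d31508_co.Shr.SuspG
import Pool.Agent.Lib.MP_d31508_co.Shr.PieceG
import Pool.Agent.Lib.MP_d31508_co.Shr.CutM

/-!
# MP_d31508_co: `f(n,k)` up to the order of the second order term, and exactly for larger `n`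

For all `n ≥ 2k + 1` with `C log n log k ≤ k`, the number `C(n,2) - f(n,k)` is, up to a constant
factor in the term `(n/k) log (n/k)`, the maximum of `C(k+1,2) + (n-k-1) + (n/k) log (n/k)` and of
`E(n,k) = ⌊3(n-1)/2⌋` (`k` even), `⌊3n/2⌋ - 2` (`k` odd). For `n ≥ k² + 24640 k log k` it is
equal to `E(n,k)`.
-/

namespace Pool.Agent.Results.MP_d31508_co.MainTheorem

/-- `G` has the property `P_k`: every set of exactly `k + 2` vertices contains a vertex adjacent
to at least `k` vertices of the set -/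
def HasP {n : ℕ} (k : ℕ) (G : SimpleGraph (Fin n)) : Prop :=
  ∀ S : Finset (Fin n), S.card = k + 2 → ∃ v ∈ S, k ≤ {w | w ∈ S ∧ G.Adj v w}.ncard

/-- `f(n,k)`, the least number of edges of a graph on `n` vertices with the property `P_k` -/
noncomputable def f (n k : ℕ) : ℕ :=
  sInf {e | ∃ G : SimpleGraph (Fin n), HasP k G ∧ G.edgeSet.ncard = e}

/-- `⌊3(n-1)/2⌋` for even `k`, `⌊3n/2⌋ - 2` for odd `k` -/
def E (n k : ℕ) : ℕ := if Even k then 3 * (n - 1) / 2 else 3 * n / 2 - 2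

open Pool.Agent.Lib.MP_d31508_co in
/-- There is `C > 0` such that for all `k ≥ 2` and `n ≥ 2k + 1` with `C log n log k ≤ k`:
the number `C(n,2) - f(n,k)` lies between
`max (C(k+1,2) + (n-k-1) + (1/100) (n/k) log (n/k), E(n,k))` and
`max (C(k+1,2) + (n-k-1) + 6160 (n/k) log (n/k), E(n,k))`, and it is equal to `E(n,k)` if
`n ≥ k² + 24640 k log k`. -/
theorem result : ∃ C : ℝ, 0 < C ∧ ∀ n k : ℕ, 2 ≤ k → 2 * k + 1 ≤ n →
    C * (Real.log n * Real.log k) ≤ k →
    max (((k + 1).choose 2 : ℝ) + (n - k - 1) + 1 / 100 * (n / k * Real.log (n / k))) (E n k) ≤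
      (n.choose 2 : ℝ) - f n k ∧
    (n.choose 2 : ℝ) - f n k ≤
      max (((k + 1).choose 2 : ℝ) + (n - k - 1) + 6160 * (n / k * Real.log (n / k))) (E n k) ∧
    ((k : ℝ) ^ 2 + 24640 * (k * Real.log k) ≤ n → f n k + E n k = n.choose 2) := by
  obtain ⟨C, hC, h⟩ := Sharp.main_of_ext (Shr.stExt Shp.stThin
    (Shr.stBigG Shr.stSelL Shr.stFlexG (Shr.stIncG Shr.stSuspG (Shr.stPieceG Shr.stCutM))))
  refine ⟨C, hC, fun n k hk hn hlog => ?_⟩
  have e : (((k + 1).choose 2 : ℕ) : ℝ) + (n - k - 1) = ((k : ℝ) + 1) * k / 2 + (n - (k + 1)) := by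
    rw [Nat.cast_choose_two]
    push_cast
    ring
  rw [e]
  exact h n k hk hn hlog

end Pool.Agent.Results.MP_d31508_co.MainTheorem
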